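import Mathlib
import Pool.Agent.Z894.LX.Stm

set_option autoImplicit false
set_option linter.unusedSectionVars false

open MvPolynomial

namespace Pool.Agent.Y708.LX

open Pool.Agent.TH922.KC Pool.Agent.Z894.LX

/-- the generic point, over an algebraically closed field -/
lemma gen_pt {κ V : Type} [Field κ] (P : Ideal (MvPolynomial V κ)) [hP : P.IsPrime] :
    ∃ (Ω : Type) (_ : Field Ω) (_ : Algebra κ Ω) (_ : IsAlgClosed Ω) (η : V → Ω),
      RingHom.ker (aeval η : MvPolynomial V κ →ₐ[κ] Ω) = P := by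
  let F := FractionRing (MvPolynomial V κ ⧸ P)
  let Ω := AlgebraicClosure F
  let ψ : (MvPolynomial V κ ⧸ P) →ₐ[κ] Ω :=
    (IsScalarTower.toAlgHom κ F Ω).comp
      (IsScalarTower.toAlgHom κ (MvPolynomial V κ ⧸ P) F)
  have hψ : Function.Injective ψ := by
    intro a b hab
    have h1 : algebraMap F Ω (algebraMap _ F a) = algebraMap F Ω (algebraMap _ F b) := hab
    exact IsFractionRing.injective (MvPolynomial V κ ⧸ P) F
      ((algebraMap F Ω).injective h1)
  let x : V → Ω := fun v => ψ (Ideal.Quotient.mk P (MvPolynomial.X v))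
  have hax : (aeval x : MvPolynomial V κ →ₐ[κ] Ω)
      = ψ.comp (Ideal.Quotient.mkₐ κ P) := by
    apply MvPolynomial.algHom_ext
    intro v
    rw [aeval_X]
    rfl
  refine ⟨Ω, inferInstance, inferInstance, inferInstance, x, ?_⟩
  ext p
  rw [RingHom.mem_ker, hax]
  change ψ (Ideal.Quotient.mk P p) = 0 ↔ _
  rw [map_eq_zero_iff _ hψ, Ideal.Quotient.eq_zero_iff_mem]

section ev

variable {κ Ω : Type} [Field κ] [Field Ω] [Algebra κ Ω] {n : ℕ}

/-- evaluation of coefficient vectors -/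
noncomputable def ev (κ : Type) [Field κ] [Algebra κ Ω] (η : Fin (n + 1) → Ω) :
    (Fin (n + 1) → κ) →ₗ[κ] Ω where
  toFun w := ∑ i, algebraMap κ Ω (w i) * η i
  map_add' := by
    intro w w'
    rw [← Finset.sum_add_distrib]
    refine Finset.sum_congr rfl fun i _ => ?_
    rw [Pi.add_apply, map_add, add_mul]
  map_smul' := by
    intro c w
    rw [RingHom.id_apply, Finset.smul_sum]
    refine Finset.sum_congr rfl fun i _ => ?_
    rw [Pi.smul_apply, smul_eq_mul, map_mul, Algebra.smul_def, mul_assoc]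

lemma ev_apply (η : Fin (n + 1) → Ω) (w : Fin (n + 1) → κ) :
    ev κ η w = ∑ i, algebraMap κ Ω (w i) * η i := rfl

lemma ev_single (η : Fin (n + 1) → Ω) (i : Fin (n + 1)) :
    ev κ η (Pi.single i 1) = η i := by
  rw [ev_apply, Finset.sum_eq_single i]
  · simp
  · intro i' _ hne
    rw [Pi.single_eq_of_ne hne, map_zero, zero_mul]
  · intro h; exact absurd (Finset.mem_univ i) h

lemma ev_LF {N r : ℕ} (η : Fin (n + 1) ⊕ Fin r → Ω) (L : Fin (N + 1) → Fin (n + 1) → κ)
    (j : Fin (N + 1)) :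
    aeval η (LF L j : MvPolynomial (Fin (n + 1) ⊕ Fin r) κ)
      = ev κ (fun i => η (Sum.inl i)) (L j) := by
  rw [ev_apply]
  simp only [LF, map_sum, map_mul, aeval_C, aeval_X]

/-- general position -/
lemma gp [CharZero κ] {N : ℕ} (S : Finset (Fin (N + 1))) (hS : n + 1 ≤ S.card)
    (W : Submodule κ (Fin (n + 1) → κ)) (hW : ∀ j ∈ S, VL κ n N j ∈ W) : W = ⊤ := by
  have h1 := vand_gp (n := n) (fun j : Fin (N + 1) => ((j : ℕ) : κ)) (by
    intro x y hxy
    exact Fin.ext (Nat.cast_injective hxy)) S hS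
  rw [eq_top_iff, ← h1, Submodule.span_le]
  rintro _ ⟨j, hj, rfl⟩
  exact hW j hj

lemma intRel_pow {V : Type} [Fintype V] (w : V → Ω) (Q D : ℕ) (hD : 0 < D) (z : Ω)
    (hz : z ^ D ∈ Pc κ w (Q * D)) : IntRel (κ := κ) w Q z := by
  refine ⟨D, hD, fun i => if i = 0 then z ^ D else 0, fun i _ => ?_, ?_⟩
  · by_cases h : i = 0
    · subst h
      simpa using hz
    · simp only [if_neg h]
      exact Submodule.zero_mem _
  · rw [Finset.sum_eq_single 0]
    · simp
    · intro i _ hi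
      simp only [if_neg hi, zero_mul]
    · intro h
      exact absurd (Finset.mem_range.2 hD) h

/-- ratios for an edge -/
lemma edge_ratio (F : IntermediateField κ Ω) (q : ℕ) (hq : 0 < q) (ω : κ)
    (hω : IsPrimitiveRoot ω q) (A B u v z : Ω) (hA : A = u ^ q) (hB : B = v ^ q) (hA0 : A ≠ 0)
    (hB0 : B ≠ 0) (hz : z ^ q = A ^ (q - 1) * B) (hF : z / A ∈ F) : v / u ∈ F := by
  have hu : u ≠ 0 := by
    rintro rfl
    rw [zero_pow hq.ne'] at hA
    exact hA0 hA
  have hz0 : z ≠ 0 := by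
    rintro rfl
    rw [zero_pow hq.ne'] at hz
    exact mul_ne_zero (pow_ne_zero _ hA0) hB0 hz.symm
  have h1 : (z / A) ^ q = (v / u) ^ q := by
    rw [div_pow, div_pow, hz, ← hA, ← hB]
    have h2 : A ^ q = A ^ (q - 1) * A := by rw [← pow_succ, Nat.sub_add_cancel hq]
    rw [h2, mul_div_mul_left _ _ (pow_ne_zero _ hA0)]
  have hzA : z / A ≠ 0 := div_ne_zero hz0 hA0
  have h3 : ((v / u) / (z / A)) ^ q = 1 := by
    rw [div_pow, ← h1, div_self (pow_ne_zero _ hzA)]
  have hω' : IsPrimitiveRoot (algebraMap κ Ω ω) q :=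
    hω.map_of_injective (f := algebraMap κ Ω) (algebraMap κ Ω).injective
  have hne : NeZero q := ⟨hq.ne'⟩
  obtain ⟨i, -, hi⟩ := hω'.eq_pow_of_pow_eq_one h3
  have h4 : v / u = algebraMap κ Ω (ω ^ i) * (z / A) := by
    rw [map_pow, hi, div_mul_cancel₀ _ hzA]
  rw [h4]
  exact mul_mem (F.algebraMap_mem _) hF

end ev

theorem kappa_holds (h2 : Pool.Agent.Z894.LX.GMerge) (h3 : Pool.Agent.Z894.LX.GInt)
    (h4 : Pool.Agent.Z894.LX.GFin) : Pool.Agent.Z894.LX.GKappa := by
  intro κ _ _ n N r s k0 p hp hs ω hω pe a b D hD S h0 e hS c hc hrob P hP hPp hPgr hedge hblock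
  classical
  have hq0 : 0 < p ^ (s + k0) := pow_pos hp.pos _
  have hQ0 : 0 < p ^ s := pow_pos hp.pos _
  have hqQ : p ^ k0 * p ^ s = p ^ (s + k0) := by rw [← pow_add, add_comm]
  obtain ⟨Ω, _, _, _, η, hker⟩ := gen_pt P
  have hcΩ : CharZero Ω := charZero_of_injective_algebraMap (algebraMap κ Ω).injective
  have hzero : ∀ f ∈ P, aeval η f = 0 := by
    intro f hf
    rw [← hker] at hf
    exact (RingHom.mem_ker).mp hf
  obtain ⟨Y, hY⟩ : ∃ Y : Fin (N + 1) → Ω, ∀ j, Y j =
      aeval η (LF (VL κ n N) j : MvPolynomial (Fin (n + 1) ⊕ Fin r) κ) := ⟨_, fun _ => rfl⟩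
  have hYev : ∀ j, ev κ (fun i => η (Sum.inl i)) (VL κ n N j) = Y j := fun j => by
    rw [hY, ev_LF]
  have hDpos : ∀ i, pe i → 0 < D i := fun i hi => Nat.pos_of_dvd_of_pos (hD i hi) hq0
  have hz : ∀ i, pe i → η (Sum.inr i) ^ (D i) = Y (a i) ^ (D i - 1) * Y (b i) := by
    intro i hi
    have h1 := hzero _ (hedge i hi)
    rw [map_sub, map_mul, map_pow, map_pow, aeval_X, sub_eq_zero, ← hY, ← hY] at h1
    exact h1
  -- the roots
  have hr : ∀ m : ℕ, ∃ y : Ω, (∀ h : m < N + 1, Y ⟨m, h⟩ = y ^ (p ^ (s + k0))) ∧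
      (N + 1 ≤ m → y = 0) := by
    intro m
    by_cases hm : m < N + 1
    · obtain ⟨y, hy⟩ := IsAlgClosed.exists_pow_nat_eq (Y ⟨m, hm⟩) hq0
      exact ⟨y, fun _ => hy.symm, fun h => absurd hm (by omega)⟩
    · exact ⟨0, fun h => absurd h hm, fun _ => rfl⟩
  choose yy hyy hyy0 using hr
  -- the relations of the blocks
  have hbl : ∀ i, ¬ pe i → ∃ l : {b // b ∈ (S i).erase (h0 i)} → Fin (p ^ (s + k0)),
      η (Sum.inr i) ^ (e i) = ∑ o, algebraMap κ Ω (c i o *
        ω ^ (∑ b, (l b : ℕ) * bd 0 (mE o) b.1)) *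
          ∏ m ∈ Finset.range (N + 1), yy m ^ mE o m := by
    intro i hi
    obtain ⟨E, hEP, hE⟩ := hblock i hi
    have h1 := hzero _ hEP
    have h5 : aeval η (aeval (sg κ n N r) E) =
        eval₂ (algebraMap κ Ω) (Sum.elim Y (fun i => η (Sum.inr i))) E := by
      have h6 : (aeval η : MvPolynomial (Fin (n + 1) ⊕ Fin r) κ →ₐ[κ] Ω).comp
          (aeval (sg κ n N r)) = aeval (Sum.elim Y (fun i => η (Sum.inr i))) := by
        apply MvPolynomial.algHom_ext
        rintro (j | j)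
        · rw [AlgHom.comp_apply, aeval_X, aeval_X]
          exact (hY j).symm
        · rw [AlgHom.comp_apply, aeval_X, aeval_X]
          exact aeval_X _ _
      rw [← AlgHom.comp_apply, h6, aeval_def]
    rw [h5, hE Ω (algebraMap κ Ω) _ yy (fun m h => hyy m h) hyy0, Finset.prod_eq_zero_iff] at h1
    obtain ⟨l, -, hl⟩ := h1
    exact ⟨l, sub_eq_zero.mp hl⟩
  by_cases hη : ∀ i, η (Sum.inl i) = 0
  · -- everything vanishes
    have hY0 : ∀ j, Y j = 0 := fun j => by rw [← hYev, ev_apply]; simp [hη]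
    have hyz : ∀ m, yy m = 0 := by
      intro m
      by_cases hm : m < N + 1
      · have h1 := hyy m hm
        rw [hY0] at h1
        exact (pow_eq_zero_iff hq0.ne').mp h1.symm
      · exact hyy0 m (by omega)
    have hall : ∀ x, (X x : MvPolynomial (Fin (n + 1) ⊕ Fin r) κ) ∈ P := by
      intro x
      rw [← hker, RingHom.mem_ker, aeval_X]
      rcases x with i | i
      · exact hη i
      · by_cases hi : pe i
        · have h1 := hz i hi
          rw [hY0 (b i), mul_zero] at h1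
          exact (pow_eq_zero_iff (hDpos i hi).ne').mp h1
        · obtain ⟨l, hl⟩ := hbl i hi
          have he := (hS i hi).2.2
          have h1 : η (Sum.inr i) ^ (e i) = 0 := by
            rw [hl]
            refine Finset.sum_eq_zero fun o _ => ?_
            have h5 : ∏ m ∈ Finset.range (N + 1), yy m ^ mE o m = 0 := by
              simp only [hyz]
              rw [Finset.prod_pow_eq_pow_sum, sum_mE, zero_pow]
              exact (Nat.mul_pos hq0 he).ne'
            rw [h5, mul_zero]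
          exact (pow_eq_zero_iff he.ne').mp h1
    refine ⟨1, fun t ht => ?_⟩
    obtain ⟨u, rfl⟩ := Nat.exists_eq_add_of_le' ht
    rw [hf_all hall, hf_all hall]
    simp
  set K : Finset (Fin (N + 1)) := Finset.univ.filter fun j => Y j = 0 with hK
  have hKn : K.card ≤ n := by
    by_contra hlt
    push Not at hlt
    apply hη
    have h1 := gp K hlt (LinearMap.ker (ev κ (fun i => η (Sum.inl i)))) (by
      intro j hj
      rw [LinearMap.mem_ker, hYev]
      exact (Finset.mem_filter.mp hj).2)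
    intro i
    have h5 : (Pi.single i 1 : Fin (n + 1) → κ) ∈
        LinearMap.ker (ev κ (fun i => η (Sum.inl i))) := by rw [h1]; trivial
    rw [LinearMap.mem_ker, ev_single] at h5
    exact h5
  obtain ⟨T, hKT, hcard, hconn⟩ := hrob K hKn
  have hTpos : 0 < T.card := by omega
  have hYT : ∀ j ∈ T, Y j ≠ 0 := by
    intro j hj h0
    exact (Finset.disjoint_left.mp hKT) (Finset.mem_filter.mpr ⟨Finset.mem_univ j, h0⟩) hj
  obtain ⟨m, hm⟩ : ∃ m, T.card = m + 1 := ⟨T.card - 1, by omega⟩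
  let ε : Fin (m + 1) ≃ T := (finCongr hm.symm).trans T.equivFin.symm
  have hyT : ∀ j : Fin (N + 1), Y j = yy j ^ (p ^ (s + k0)) := fun j => hyy j.1 j.2
  obtain ⟨w, hw⟩ : ∃ w : Fin (m + 1) → Ω, ∀ x, w x = yy (ε x : Fin (N + 1)) ^ (p ^ k0) :=
    ⟨_, fun _ => rfl⟩
  have hwQ : ∀ x, w x ^ (p ^ s) = Y (ε x) := by
    intro x
    rw [hw, ← pow_mul, hqQ, hyT]
  have hw0 : ∀ x, w x ≠ 0 := by
    intro x h
    have h1 := hwQ x
    rw [h, zero_pow hQ0.ne'] at h1
    exact hYT _ (ε x).2 h1.symm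
  -- linear forms
  have hlin : ∀ v : Fin (n + 1) → κ, ev κ (fun i => η (Sum.inl i)) v ∈ Pc κ w (p ^ s) := by
    intro v
    have h1 := gp (K ∪ T) (by rw [Finset.card_union_of_disjoint hKT]; exact hcard)
      (Submodule.comap (ev κ (fun i => η (Sum.inl i))) (Pc κ w (p ^ s))) (by
        intro j hj
        rw [Submodule.mem_comap, hYev]
        rcases Finset.mem_union.mp hj with hj | hj
        · rw [(Finset.mem_filter.mp hj).2]
          exact Submodule.zero_mem _
        · have h5 := Pc_pow (κ := κ) (Pc_X (κ := κ) w (ε.symm ⟨j, hj⟩)) (p ^ s)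
          rw [one_mul, hwQ, Equiv.apply_symm_apply] at h5
          exact h5)
    have h5 : v ∈ Submodule.comap (ev κ (fun i => η (Sum.inl i))) (Pc κ w (p ^ s)) := by
      rw [h1]; trivial
    exact h5
  have hYPc : ∀ j, Y j ∈ Pc κ w (p ^ s) := fun j => hYev j ▸ hlin _
  -- the coordinates are integral
  have hint : ∀ v, IntRel (κ := κ) w (p ^ s) (η v) := by
    rintro (i | i)
    · refine intRel_pow w (p ^ s) 1 one_pos _ ?_
      rw [pow_one, mul_one]
      have h1 := hlin (Pi.single i 1)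
      rwa [ev_single] at h1
    · by_cases hi : pe i
      · refine intRel_pow w (p ^ s) (D i) (hDpos i hi) _ ?_
        rw [hz i hi]
        have h1 := Pc_mul (Pc_pow (hYPc (a i)) (D i - 1)) (hYPc (b i))
        have h5 : p ^ s * (D i - 1) + p ^ s = p ^ s * D i := by
          rw [← Nat.mul_succ, Nat.succ_eq_add_one, Nat.sub_add_cancel (hDpos i hi)]
        rwa [h5] at h1
      · obtain ⟨l, hl⟩ := hbl i hi
        refine h3 κ Ω m w (p ^ s) (p ^ k0) N (e i) (pow_pos hp.pos _) hQ0 (hS i hi).2.2 yy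
          ?_ _ _ (fun o => mE o) ?_ _ hl
        · intro x
          rw [mul_comm, hqQ]
          by_cases hx : x < N + 1
          · rw [← hyy x hx]
            exact hYPc _
          · rw [hyy0 x (by omega), zero_pow hq0.ne']
            exact Submodule.zero_mem _
        · intro o
          rw [sum_mE, mul_comm (p ^ s), hqQ]
  -- the enlarged ring
  let F1 : Fin (m + 1) ⊕ (Fin (n + 1) ⊕ Fin r) → MvPolynomial (Fin (n + 1) ⊕ Fin r) κ :=
    Sum.elim (fun x => LF (VL κ n N) (ε x)) (fun x => X x)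
  have hF1 : ∀ x, (F1 x).IsHomogeneous 1 := by
    rintro (x | x)
    · exact LF_hom _ _
    · exact isHomogeneous_X _ _
  obtain ⟨ξ, hξ⟩ : ∃ ξ : Fin (m + 1) ⊕ (Fin (n + 1) ⊕ Fin r) → Ω,
      ξ = Sum.elim (fun j => w j ^ (p ^ s)) η := ⟨_, rfl⟩
  have hF1e : ∀ x, aeval η (F1 x) = ξ x := by
    rw [hξ]
    rintro (x | x)
    · show aeval η (LF (VL κ n N) (ε x)) = w x ^ (p ^ s)
      rw [hwQ, hY]
    · exact aeval_X _ _
  have hcomp1 : (aeval η : MvPolynomial (Fin (n + 1) ⊕ Fin r) κ →ₐ[κ] Ω).comp (aeval F1)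
      = aeval ξ := by
    apply MvPolynomial.algHom_ext
    intro x
    rw [AlgHom.comp_apply, aeval_X, hF1e, aeval_X]
  have hker1 : RingHom.ker (aeval ξ : MvPolynomial (Fin (m + 1) ⊕ (Fin (n + 1) ⊕ Fin r)) κ
      →ₐ[κ] Ω) = P.comap (aeval F1 : MvPolynomial (Fin (m + 1) ⊕ (Fin (n + 1) ⊕ Fin r)) κ
        →ₐ[κ] _) := by
    ext f
    have h1 : aeval F1 f ∈ RingHom.ker (aeval η :
        MvPolynomial (Fin (n + 1) ⊕ Fin r) κ →ₐ[κ] Ω) ↔ aeval F1 f ∈ P := iff_of_eq (congrArg
          (fun I : Ideal (MvPolynomial (Fin (n + 1) ⊕ Fin r) κ) => aeval F1 f ∈ I) hker)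
    rw [Ideal.mem_comap]
    refine Iff.trans ?_ h1
    rw [RingHom.mem_ker, RingHom.mem_ker, ← hcomp1]
    rfl
  have hh1 : IsHom (RingHom.ker (aeval ξ :
      MvPolynomial (Fin (m + 1) ⊕ (Fin (n + 1) ⊕ Fin r)) κ →ₐ[κ] Ω)) := by
    rw [hker1]; exact hom_comap_one F1 hF1 hP
  have hf1 : ∀ t, hf (RingHom.ker (aeval ξ :
      MvPolynomial (Fin (m + 1) ⊕ (Fin (n + 1) ⊕ Fin r)) κ →ₐ[κ] Ω)) t = hf P t := by
    intro t
    conv_rhs => rw [← hker]
    apply le_antisymm
    · exact hf_same ξ η (fun x => ⟨F1 x, hF1 x, hF1e x⟩) t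
    · refine hf_same η ξ (fun x => ⟨X (Sum.inr x), isHomogeneous_X _ _, ?_⟩) t
      rw [aeval_X, hξ]
      rfl
  obtain ⟨C, hC⟩ := hPgr
  obtain ⟨K1, hK1⟩ := h4 κ Ω m (Fin (n + 1) ⊕ Fin r) (p ^ s) w η hQ0 ⟨0, hw0 0⟩ hint
    (RingHom.ker (aeval ξ : MvPolynomial (Fin (m + 1) ⊕ (Fin (n + 1) ⊕ Fin r)) κ →ₐ[κ] Ω))
    hh1 (by rw [hξ]) (by
      intro j0 hj0 j
      rw [← hξ]
      have hξ0 : ξ (Sum.inl j0) = Y (ε j0) := by
        rw [hξ]
        exact hwQ j0
      generalize hF : RF κ ξ (Sum.inl j0) = F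
      have hx0 : Y (ε j0) ≠ 0 := hYT _ (ε j0).2
      have k1 : ∀ v, η v / Y (ε j0) ∈ F := by
        intro v
        have h5 := ratio_mem (κ := κ) ξ (Sum.inl j0) (Sum.inr v)
        rw [hξ0, hF] at h5
        have h6 : ξ (Sum.inr v) = η v := by rw [hξ]; rfl
        rwa [h6] at h5
      have k2 : ∀ x, Y x / Y (ε j0) ∈ F := by
        intro x
        rw [← hYev x, ev_apply, Finset.sum_div]
        refine sum_mem fun i _ => ?_
        rw [mul_div_assoc]
        exact mul_mem (F.algebraMap_mem _) (k1 _)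
      have k3 : ∀ x, Y x ≠ 0 → ∀ v, v / Y (ε j0) ∈ F → v / Y x ∈ F := by
        intro x hx v hv
        have h5 := div_mem hv (k2 x)
        rwa [div_div_div_cancel_right₀ hx0] at h5
      have hyne : ∀ x : Fin (N + 1), Y x ≠ 0 → yy x ≠ 0 := by
        intro x hx h
        apply hx
        rw [hyT, h, zero_pow hq0.ne']
      -- the set of good vertices
      have hall : ∀ x ∈ T, yy x ^ (p ^ k0) / yy (ε j0 : Fin (N + 1)) ^ (p ^ k0) ∈ F := by
        by_contra hcon
        push Not at hcon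
        obtain ⟨x₁, hx₁, hx₁'⟩ := hcon
        obtain ⟨x, hx, y, hy, hxy⟩ := hconn
          (T.filter fun x => yy x ^ (p ^ k0) / yy (ε j0 : Fin (N + 1)) ^ (p ^ k0) ∈ F)
          (by
            refine Finset.ssubset_iff_subset_ne.mpr ⟨Finset.filter_subset _ _, fun h => ?_⟩
            rw [← h] at hx₁
            exact hx₁' (Finset.mem_filter.mp hx₁).2)
          (by
            refine ⟨ε j0, Finset.mem_filter.mpr ⟨(ε j0).2, ?_⟩⟩
            rw [div_self (pow_ne_zero _ (hyne _ hx0))]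
            exact one_mem _)
        obtain ⟨hxT, hxF⟩ := Finset.mem_filter.mp hx
        obtain ⟨hyT', hyF⟩ := Finset.mem_sdiff.mp hy
        have hYx := hYT x hxT
        have hYy := hYT y hyT'
        apply hyF
        refine Finset.mem_filter.mpr ⟨hyT', ?_⟩
        -- it suffices to have the ratio of `y` and `x`
        have key : (yy y / yy x) ^ (p ^ k0) ∈ F →
            yy y ^ (p ^ k0) / yy (ε j0 : Fin (N + 1)) ^ (p ^ k0) ∈ F := by
          intro h5
          have h6 := mul_mem h5 hxF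
          rw [div_pow, div_mul_div_cancel₀ (pow_ne_zero _ (hyne x hYx))] at h6
          exact h6
        apply key
        rcases hxy with ⟨i, hi, hDi, hab⟩ | ⟨i, hi, hxS, hyS⟩
        · have hzi := hz i hi
          rw [hDi] at hzi
          rcases hab with ⟨hax, hby⟩ | ⟨hay, hbx⟩
          · rw [hax, hby] at hzi
            exact pow_mem (edge_ratio F (p ^ (s + k0)) hq0 ω hω (Y x) (Y y) (yy x) (yy y) _
              (hyT x) (hyT y) hYx hYy hzi (k3 x hYx _ (k1 _))) _
          · rw [hay, hbx] at hzi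
            have h5 := edge_ratio F (p ^ (s + k0)) hq0 ω hω (Y y) (Y x) (yy y) (yy x) _
              (hyT y) (hyT x) hYy hYx hzi (k3 y hYy _ (k1 _))
            have h6 := inv_mem h5
            rw [inv_div] at h6
            exact pow_mem h6 _
        · obtain ⟨l, hl⟩ := hbl i hi
          obtain ⟨hSN, hSc, hei⟩ := hS i hi
          refine h2 κ Ω N (s + k0) p (e i) k0 hp ω hω _ yy (S i) hSN (h0 i) (c i) (hc i hi) l hl
            ?_ F x hxS (hyne x hYx) ?_ ?_ hSc y hyS
          · have h5 : p ^ (k0 + 1) ≤ p ^ (s + k0) :=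
              Nat.pow_le_pow_right hp.pos (by omega)
            have h6 : p ^ (s + k0) * 1 ≤ p ^ (s + k0) * e i := Nat.mul_le_mul_left _ hei
            omega
          · intro v
            rw [← hyT x]
            by_cases hv : v < N + 1
            · rw [← hyy v hv]
              exact k3 x hYx _ (k2 _)
            · rw [hyy0 v (by omega), zero_pow hq0.ne', zero_div]
              exact zero_mem _
          · rw [← hyT x]
            exact k3 x hYx _ (k1 _)
      rw [hw, hw]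
      exact hall _ (ε j).2)
    ⟨C, fun t => by rw [hf1]; exact hC t⟩
  refine ⟨K1, fun t ht => ?_⟩
  have h5 := hK1 t ht
  rwa [hf1, hf1] at h5

end Pool.Agent.Y708.LX
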